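import Pool.Agent.H63.SC1

set_option autoImplicit false

namespace Pool.Agent.Results.MP_020f70_lc.NoFamily

open Pool.Agent.H63.SC

/-- For every family of control languages, `SCFA(𝓛) ≠ CS`; more precisely, if `SCFA(𝓛)` contains,
up to the empty word, all `ε`-free context-sensitive languages, it contains a language that is not
context-sensitive. -/
theorem result (𝓛 : Family)
    (h : ∀ (A : Type) [Fintype A], ∀ K ∈ CS A, [] ∉ K → ∃ K' ∈ SCFA 𝓛 A, K' \ {[]} = K) :
    ∃ K ∈ SCFA 𝓛 (Fin 3), K ∉ CS (Fin 3) :=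
  sc_sep 𝓛 h

end Pool.Agent.Results.MP_020f70_lc.NoFamily
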